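import Pool.Agent.Y40.WC.Lattice

/-! The adjoint polytopes of the simplices `k Δ_n`. -/

set_option autoImplicit false

open Set Module

namespace Pool.Agent.Y40.WC

open Pool.Agent.Results.MP_f2eb3d_co.WidthOne

theorem isFacet_of {n : ℕ} {P : Set (Fin n → ℝ)} {a : Fin n → ℤ} {b : ℤ}
    (hprim : ∀ k : ℤ, (∀ i, k ∣ a i) → IsUnit k) (hge : ∀ x ∈ P, (b : ℝ) ≤ lin a x)
    (hne : {x | x ∈ P ∧ lin a x = b}.Nonempty)
    (hspan : ∀ y, lin a y = 0 → y ∈ vectorSpan ℝ {x | x ∈ P ∧ lin a x = b}) :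
    IsFacet P a b := by
  refine ⟨hprim, hge, hne, ?_⟩
  rw [direction_affineSpan]
  have ha : a ≠ 0 := by
    rintro rfl
    have := hprim 2 (fun i => by simp)
    rw [Int.isUnit_iff] at this
    omega
  let L : Dual ℝ (Fin n → ℝ) :=
    { toFun := lin a
      map_add' := lin_add a
      map_smul' := fun c x => lin_smul a c x }
  have hL : L ≠ 0 := by
    intro h
    apply ha
    funext i
    have h1 : L (Pi.single i 1) = 0 := by rw [h]; rfl
    have h2 : L (Pi.single i 1) = a i := by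
      show lin a (Pi.single i 1) = a i
      simp [lin, Pi.single_apply]
    rw [h2] at h1
    exact_mod_cast h1
  have h1 : vectorSpan ℝ {x | x ∈ P ∧ lin a x = b} = LinearMap.ker L := by
    apply le_antisymm
    · rw [vectorSpan_def, Submodule.span_le]
      rintro _ ⟨x, ⟨-, hx⟩, y, ⟨-, hy⟩, rfl⟩
      rw [SetLike.mem_coe, LinearMap.mem_ker]
      show L (x - y) = 0
      rw [map_sub]
      show lin a x - lin a y = 0
      rw [hx, hy, sub_self]
    · intro y hy
      exact hspan y hy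
  rw [h1, Module.Dual.finrank_ker_add_one_of_ne_zero hL, finrank_fintype_fun_eq_card,
    Fintype.card_fin]

theorem dilated_bound {n : ℕ} (hn : 1 ≤ n) {P : Set (Fin n → ℝ)} {k : ℕ} (hk : 1 ≤ k)
    (h : IsDilatedSimplex P k) {s : ℝ} (hs : (adjoint P s).Nonempty) : s * (n + 1) ≤ k := by
  classical
  obtain ⟨B, t, hB, hP⟩ := h
  have hk0 : (0 : ℝ) < k := by exact_mod_cast hk
  set A := B⁻¹ with hA
  have hAB : A * B = 1 := Matrix.nonsing_inv_mul B hB
  have hBA : B * A = 1 := Matrix.mul_nonsing_inv B hB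
  obtain ⟨φ, hφ⟩ : ∃ φ : (Fin n → ℝ) → (Fin n → ℝ),
      φ = fun (x : Fin n → ℝ) (i : Fin n) => (∑ j, (B i j : ℝ) * x j) + t i := ⟨_, rfl⟩
  have hφd : ∀ x y, φ x - φ y = fun i => ∑ j, (B i j : ℝ) * (x j - y j) := by
    intro x y
    funext i
    rw [hφ]
    simp only [Pi.sub_apply]
    rw [add_sub_add_right_eq_sub, ← Finset.sum_sub_distrib]
    exact Finset.sum_congr rfl fun j _ => by ring
  rw [← hφ] at hP
  have hj : ∀ (j : Fin n) (y : Fin n → ℝ),
      lin (A j) (φ y) - ((∑ c, A j c * t c : ℤ) : ℝ) = y j := by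
    intro j y
    have h1 : lin (A j) (φ y) = ∑ e, (∑ c, (A j c : ℝ) * (B c e : ℝ)) * y e +
        ((∑ c, A j c * t c : ℤ) : ℝ) := by
      rw [hφ, lin]
      simp only [mul_add, Finset.sum_add_distrib]
      push_cast
      congr 1
      simp only [Finset.sum_mul, Finset.mul_sum]
      rw [Finset.sum_comm]
      exact Finset.sum_congr rfl fun _ _ => Finset.sum_congr rfl fun _ _ => by ring
    have h2 : ∀ e, ∑ c, (A j c : ℝ) * (B c e : ℝ) = if j = e then 1 else 0 := by
      intro e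
      have h3 := congrFun (congrFun hAB j) e
      rw [Matrix.mul_apply, Matrix.one_apply] at h3
      have h4 : ((∑ c, A j c * B c e : ℤ) : ℝ) = ((if j = e then 1 else 0 : ℤ) : ℝ) := by
        rw [h3]
      push_cast at h4
      exact h4
    rw [h1]
    simp [h2]
  have hyB : ∀ y : Fin n → ℝ, y = ∑ i, lin (A i) y • (fun c => (B c i : ℝ)) := by
    intro y
    funext c
    rw [Finset.sum_apply]
    simp only [Pi.smul_apply, smul_eq_mul, lin]
    have h2 : ∀ e, ∑ i, (B c i : ℝ) * (A i e : ℝ) = if c = e then 1 else 0 := by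
      intro e
      have h3 := congrFun (congrFun hBA c) e
      rw [Matrix.mul_apply, Matrix.one_apply] at h3
      have h4 : ((∑ i, B c i * A i e : ℤ) : ℝ) = ((if c = e then 1 else 0 : ℤ) : ℝ) := by
        rw [h3]
      push_cast at h4
      exact h4
    have h5 : ∑ i, (∑ e, (A i e : ℝ) * y e) * (B c i : ℝ) =
        ∑ e, (∑ i, (B c i : ℝ) * (A i e : ℝ)) * y e := by
      simp only [Finset.sum_mul]
      rw [Finset.sum_comm]
      exact Finset.sum_congr rfl fun _ _ => Finset.sum_congr rfl fun _ _ => by ring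
    rw [h5]
    simp [h2]
  have hsingle : ∀ (i : Fin n) (c : Fin n), ∑ j, (B c j : ℝ) * (Pi.single i (k : ℝ) : Fin n → ℝ) j =
      k * (B c i : ℝ) := by
    intro i c
    simp [Pi.single_apply, mul_comm]
  -- the functional of the facet opposite to the vertex `t`
  have ha0 : ∀ x : Fin n → ℝ, lin (fun c => -∑ j, A j c) x = -∑ j, lin (A j) x := by
    intro x
    simp only [lin]
    push_cast
    rw [Finset.sum_comm, ← Finset.sum_neg_distrib]
    refine Finset.sum_congr rfl fun c _ => ?_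
    rw [neg_mul, Finset.sum_mul]
  have hb0 : ((-(k : ℤ) + ∑ c, (-∑ j, A j c) * t c : ℤ) : ℝ) =
      -k - ∑ j, ((∑ c, A j c * t c : ℤ) : ℝ) := by
    push_cast
    rw [Finset.sum_comm, sub_eq_add_neg, ← Finset.sum_neg_distrib]
    congr 1
    refine Finset.sum_congr rfl fun c _ => ?_
    rw [neg_mul, Finset.sum_mul]
  have h0 : ∀ x : Fin n → ℝ, lin (fun c => -∑ j, A j c) x -
      ((-(k : ℤ) + ∑ c, (-∑ j, A j c) * t c : ℤ) : ℝ) =
      k - ∑ j, (lin (A j) x - ((∑ c, A j c * t c : ℤ) : ℝ)) := by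
    intro x
    rw [ha0, hb0, Finset.sum_sub_distrib]
    ring
  have hmem : ∀ y : Fin n → ℝ, (∀ j, 0 ≤ y j) → ∑ j, y j ≤ k → φ y ∈ P := by
    intro y h1 h2
    rw [hP]
    exact ⟨y, ⟨h1, h2⟩, rfl⟩
  have hPx : ∀ x ∈ P, (∀ j, 0 ≤ lin (A j) x - ((∑ c, A j c * t c : ℤ) : ℝ)) ∧
      ∑ j, (lin (A j) x - ((∑ c, A j c * t c : ℤ) : ℝ)) ≤ k := by
    intro x hx
    rw [hP] at hx
    obtain ⟨y, ⟨h1, h2⟩, rfl⟩ := hx
    simp only [hj]
    exact ⟨h1, h2⟩
  have hs1 : ∀ i : Fin n, (∀ j, 0 ≤ (Pi.single i (k : ℝ) : Fin n → ℝ) j) ∧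
      ∑ j, (Pi.single i (k : ℝ) : Fin n → ℝ) j ≤ k := by
    intro i
    refine ⟨fun j => ?_, ?_⟩
    · rw [Pi.single_apply]
      split_ifs <;> simp
    · simp
  have hfj : ∀ j : Fin n, IsFacet P (A j) (∑ c, A j c * t c) := by
    intro j
    refine isFacet_of ?_ ?_ ?_ ?_
    · intro q hq
      have h1 := congrFun (congrFun hAB j) j
      rw [Matrix.mul_apply, Matrix.one_apply_eq] at h1
      apply isUnit_of_dvd_one
      rw [← h1]
      exact Finset.dvd_sum fun c _ => Dvd.dvd.mul_right (hq c) _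
    · intro x hx
      exact sub_nonneg.1 ((hPx x hx).1 j)
    · refine ⟨φ 0, hmem 0 (fun _ => le_rfl) (by simp), ?_⟩
      have := hj j 0
      rw [Pi.zero_apply] at this
      exact sub_eq_zero.1 this
    · intro y hy
      rw [hyB y]
      apply Submodule.sum_mem
      intro i _
      by_cases hij : i = j
      · rw [hij, hy, zero_smul]
        exact Submodule.zero_mem _
      · apply Submodule.smul_mem
        have h1 : (fun c => (B c i : ℝ)) = (k : ℝ)⁻¹ • (φ (Pi.single i (k : ℝ)) - φ 0) := by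
          rw [hφd]
          funext c
          simp only [Pi.zero_apply, sub_zero, Pi.smul_apply, smul_eq_mul]
          rw [hsingle, inv_mul_cancel_left₀ hk0.ne']
        rw [h1]
        apply Submodule.smul_mem
        rw [← vsub_eq_sub]
        apply vsub_mem_vectorSpan
        · refine ⟨hmem _ (hs1 i).1 (hs1 i).2, ?_⟩
          have := hj j (Pi.single i (k : ℝ))
          rw [Pi.single_apply, if_neg (fun h => hij h.symm)] at this
          exact sub_eq_zero.1 this
        · refine ⟨hmem 0 (fun _ => le_rfl) (by simp), ?_⟩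
          have := hj j 0
          rw [Pi.zero_apply] at this
          exact sub_eq_zero.1 this
  have hf0 : IsFacet P (fun c => -∑ j, A j c) (-(k : ℤ) + ∑ c, (-∑ j, A j c) * t c) := by
    have hon : ∀ i : Fin n, φ (Pi.single i (k : ℝ)) ∈
        {x | x ∈ P ∧ lin (fun c => -∑ j, A j c) x =
          ((-(k : ℤ) + ∑ c, (-∑ j, A j c) * t c : ℤ) : ℝ)} := by
      intro i
      refine ⟨hmem _ (hs1 i).1 (hs1 i).2, ?_⟩
      have h1 := h0 (φ (Pi.single i (k : ℝ)))
      simp only [hj] at h1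
      rw [Finset.sum_pi_single', if_pos (Finset.mem_univ _), sub_self] at h1
      exact sub_eq_zero.1 h1
    refine isFacet_of ?_ ?_ ?_ ?_
    · intro q hq
      have h1 : ∑ c, (-∑ j, A j c) * B c ⟨0, hn⟩ = -1 := by
        have h2 : ∑ c, (-∑ j, A j c) * B c ⟨0, hn⟩ = -∑ j, (A * B) j ⟨0, hn⟩ := by
          simp only [Matrix.mul_apply]
          rw [Finset.sum_comm, ← Finset.sum_neg_distrib]
          refine Finset.sum_congr rfl fun c _ => ?_
          rw [neg_mul, Finset.sum_mul]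
        rw [h2, hAB]
        simp [Matrix.one_apply]
      apply isUnit_of_dvd_one
      rw [← dvd_neg, ← h1]
      exact Finset.dvd_sum fun c _ => Dvd.dvd.mul_right (hq c) _
    · intro x hx
      have h1 := h0 x
      have h2 := (hPx x hx).2
      linarith
    · exact ⟨_, hon ⟨0, hn⟩⟩
    · intro y hy
      rw [ha0, neg_eq_zero] at hy
      have h1 : y = ∑ i, lin (A i) y • ((fun c => (B c i : ℝ)) - fun c => (B c ⟨0, hn⟩ : ℝ)) := by
        conv_lhs => rw [hyB y]
        simp only [smul_sub, Finset.sum_sub_distrib]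
        rw [← Finset.sum_smul, hy, zero_smul, sub_zero]
      rw [h1]
      apply Submodule.sum_mem
      intro i _
      apply Submodule.smul_mem
      have h2 : ((fun c => (B c i : ℝ)) - fun c => (B c ⟨0, hn⟩ : ℝ)) =
          (k : ℝ)⁻¹ • (φ (Pi.single i (k : ℝ)) - φ (Pi.single ⟨0, hn⟩ (k : ℝ))) := by
        rw [hφd]
        funext c
        simp only [Pi.sub_apply, Pi.smul_apply, smul_eq_mul, mul_sub, Finset.sum_sub_distrib]
        rw [hsingle, hsingle, inv_mul_cancel_left₀ hk0.ne', inv_mul_cancel_left₀ hk0.ne']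
      rw [h2]
      apply Submodule.smul_mem
      rw [← vsub_eq_sub]
      exact vsub_mem_vectorSpan ℝ (hon i) (hon _)
  obtain ⟨x, hx⟩ := hs
  have h1 := hx _ _ hf0
  rw [h0] at h1
  have h2 : ∑ _j : Fin n, s ≤ ∑ j, (lin (A j) x - ((∑ c, A j c * t c : ℤ) : ℝ)) :=
    Finset.sum_le_sum fun j _ => hx _ _ (hfj j)
  rw [Finset.sum_const, Finset.card_univ, Fintype.card_fin, nsmul_eq_mul] at h2
  linarith

end Pool.Agent.Y40.WC
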